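import Pool.Agent.X171.SC.Schur

open Finset Filter Topology

namespace Pool.Agent.Results.MP_86e52e_an.SchurTrivialDual

section Defs

variable (𝕜 : Type) [RCLike 𝕜] {X : Type} [AddCommGroup X] [Module 𝕜 X]

/-- `q` is a quasi-norm on the `𝕜`-vector space `X`. -/
structure IsQuasiNorm (q : X → ℝ) : Prop where
  nonneg : ∀ x, 0 ≤ q x
  eq_zero_iff : ∀ x, q x = 0 ↔ x = 0
  smul : ∀ (c : 𝕜) (x : X), q (c • x) = ‖c‖ * q x
  add_le : ∃ K : ℝ, ∀ x y, q (x + y) ≤ K * (q x + q y)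

omit [Module 𝕜 X] in
/-- Every `q`-Cauchy sequence `q`-converges. -/
def IsCompleteQ (q : X → ℝ) : Prop :=
  ∀ x : ℕ → X, (∀ ε : ℝ, 0 < ε → ∃ N, ∀ i, N ≤ i → ∀ j, N ≤ j → q (x i - x j) < ε) →
    ∃ y, ∀ ε : ℝ, 0 < ε → ∃ N, ∀ i, N ≤ i → q (x i - y) < ε

/-- `B` is equivalent to the unit vector basis of `ℓ_p`. -/
def EquivLp (p : ℝ) (q : X → ℝ) (B : Set X) : Prop :=
  ∃ c C : ℝ, 0 < c ∧ c ≤ C ∧ ∀ F : Finset X, (F : Set X) ⊆ B → ∀ a : X → 𝕜,
    c * (∑ x ∈ F, ‖a x‖ ^ p) ^ (1 / p) ≤ q (∑ x ∈ F, a x • x) ∧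
      q (∑ x ∈ F, a x • x) ≤ C * (∑ x ∈ F, ‖a x‖ ^ p) ^ (1 / p)

/-- The Schur `p`-property: every infinite, bounded, uniformly separated set contains an infinite
subset which is equivalent to the unit vector basis of `ℓ_p`. -/
def SchurP (p : ℝ) (q : X → ℝ) : Prop :=
  ∀ A : Set X, A.Infinite → (∃ M : ℝ, ∀ x ∈ A, q x ≤ M) →
    (∃ s : ℝ, 0 < s ∧ ∀ x ∈ A, ∀ y ∈ A, x ≠ y → s ≤ q (x - y)) →
    ∃ B : Set X, B ⊆ A ∧ B.Infinite ∧ EquivLp 𝕜 p q B

/-- Every linear functional which is continuous for `q` vanishes. -/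
def TrivialDual (q : X → ℝ) : Prop :=
  ∀ φ : X →ₗ[𝕜] 𝕜,
    (∀ x, ∀ ε : ℝ, 0 < ε → ∃ δ : ℝ, 0 < δ ∧ ∀ y, q (y - x) < δ → ‖φ y - φ x‖ < ε) → φ = 0

end Defs

open Pool.Agent.X171.SC

lemma exists_par {p : ℝ} (hp : 0 < p) (hp1 : p < 1) : ∃ m : ℕ, Par p m := by
  have h1 : Tendsto (fun m : ℕ => (m : ℝ) ^ (1 - p)) atTop atTop :=
    (tendsto_rpow_atTop (by linarith)).comp tendsto_natCast_atTop_atTop
  obtain ⟨m, hm1, hm2⟩ := ((h1.eventually_gt_atTop 3).and (eventually_gt_atTop 0)).exists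
  exact ⟨m, hm2, hp, hp1, hm1⟩

/-- For every `0 < p < 1` there is a nonzero quasi-Banach space, real or complex, which has the
Schur `p`-property and whose dual is trivial. -/
theorem result : ∀ (𝕜 : Type) [RCLike 𝕜] (p : ℝ), 0 < p → p < 1 →
    ∃ (X : Type) (_ : AddCommGroup X) (_ : Module 𝕜 X) (q : X → ℝ),
      IsQuasiNorm 𝕜 q ∧ IsCompleteQ q ∧ (∃ x : X, x ≠ 0) ∧ SchurP 𝕜 p q ∧ TrivialDual 𝕜 q := by
  intro 𝕜 _ p hp hp1
  obtain ⟨m, hP⟩ := exists_par hp hp1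
  have h0 : 0 < 1 / p := by positivity
  refine ⟨X 𝕜 p m, inferInstance, inferInstance, q, ?_, ?_, ?_, ?_, ?_⟩
  · exact ⟨q_nonneg, q_eq_zero, q_smul, ⟨_, q_add⟩⟩
  · intro x hx
    have hc : CauchySeq x := by
      rw [Metric.cauchySeq_iff]
      intro ε hε
      obtain ⟨N, hN⟩ := hx (ε ^ (1 / p)) (by positivity)
      refine ⟨N, fun i hi j hj => ?_⟩
      have h1 := hN i hi j hj
      rw [q_lt_iff _ (by positivity), ← Real.rpow_mul hε.le, one_div, inv_mul_cancel₀ hp.ne',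
        Real.rpow_one] at h1
      rwa [dist_eq_norm]
    obtain ⟨y, hy⟩ := cauchySeq_tendsto_of_complete hc
    refine ⟨y, fun ε hε => ?_⟩
    obtain ⟨N, hN⟩ := Metric.tendsto_atTop.mp hy (ε ^ p) (by positivity)
    refine ⟨N, fun i hi => ?_⟩
    rw [q_lt_iff _ hε, ← dist_eq_norm]
    exact hN i hi
  · refine ⟨((ind 𝕜 p m 0 0 : W 𝕜 m p) : X 𝕜 p m), ?_⟩
    intro h
    have hper : Function.Periodic (ind 𝕜 p m 0 0).f (m ^ 0) := fun i => by simp [ind]
    have h1 : ‖((ind 𝕜 p m 0 0 : W 𝕜 m p) : X 𝕜 p m)‖ = 0 := by rw [h, norm_zero]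
    rw [UniformSpace.Completion.norm_coe, W.norm_def] at h1
    have h2 := Am_le_nu hP.hm hp hp1.le hper
    rw [h1] at h2
    simp [Am, ind, Nat.mod_one] at h2
    linarith
  · rintro A hA ⟨M, hM⟩ ⟨s, hs, hsep⟩
    have hA' : ∀ x ∈ A, ‖x‖ ≤ (max M 0) ^ p := by
      intro x hx
      rw [← q_le_iff x (le_max_right _ _)]
      exact (hM x hx).trans (le_max_left _ _)
    have hsep' : ∀ x ∈ A, ∀ y ∈ A, x ≠ y → s ^ p ≤ ‖x - y‖ := by
      intro x hx y hy hxy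
      rw [← q_pow]
      exact Real.rpow_le_rpow hs.le (hsep x hx y hy hxy) hp.le
    obtain ⟨B, hBA, hB, c, hc, C, hC, hF⟩ := schur A hA _ hA' _ (by positivity) hsep'
    refine ⟨B, hBA, hB, min (c ^ (1 / p)) (C ^ (1 / p)), C ^ (1 / p), ?_, min_le_right _ _, ?_⟩
    · exact lt_min (by positivity) (by positivity)
    · intro F hFB a
      obtain ⟨h1, h2⟩ := hF F hFB a
      have hS : 0 ≤ ∑ x ∈ F, ‖a x‖ ^ p := Finset.sum_nonneg (fun _ _ => by positivity)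
      constructor
      · refine (mul_le_mul_of_nonneg_right (min_le_left _ _) (by positivity)).trans ?_
        rw [← Real.mul_rpow hc.le hS]
        exact Real.rpow_le_rpow (by positivity) h1 h0.le
      · rw [← Real.mul_rpow hC.le hS]
        exact Real.rpow_le_rpow (norm_nonneg _) h2 h0.le
  · intro φ hφ
    obtain ⟨δ, hδ, h1⟩ := hφ 0 1 one_pos
    simp only [sub_zero, map_zero] at h1
    refine dual_zero φ (2 / δ) ?_
    intro x
    rcases eq_or_ne x 0 with rfl | hx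
    · rw [map_zero, norm_zero]
      exact mul_nonneg (by positivity) (q_nonneg _)
    · have hq : 0 < q x := lt_of_le_of_ne (q_nonneg x) (fun h => hx ((q_eq_zero x).mp h.symm))
      set t : ℝ := δ / (2 * q x) with ht
      have htpos : 0 < t := by positivity
      have htn : ‖(t : 𝕜)‖ = t := by rw [RCLike.norm_ofReal, abs_of_pos htpos]
      have h2 : q ((t : 𝕜) • x) < δ := by
        rw [q_smul, htn, ht]
        have : δ / (2 * q x) * q x = δ / 2 := by field_simp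
        rw [this]
        linarith
      have h3 := h1 _ h2
      rw [map_smul, norm_smul, htn] at h3
      have h4 : ‖φ x‖ < 1 / t := by
        rw [lt_div_iff₀ htpos, mul_comm]
        exact h3
      refine h4.le.trans (le_of_eq ?_)
      rw [ht]
      field_simp

end Pool.Agent.Results.MP_86e52e_an.SchurTrivialDual
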